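import Mathlib
import Pool.Prelude.Def_F_d9c4f0db
import Pool.Agent.Results.MP_b15886_co.HalfBound

/-!
Affine copies of `{0, 1, 3}` in a set of `n` integers: `M(n) ≤ (√(2/3) - 1/3) (n - 1)²` for every
`n ≥ 1`, so `γ ≤ √(2/3) - 1/3 < 0.4832`.

Idea. Fix a point `o` of `A` and let `K = n - 1 - t(o)`, where `t(o)` is the number of copies with
middle point `o`. The elements of `A` that the map `x ↦ 3 o - 2 x` (which doubles the distance to
`o` and changes the side) does not send into `A` are at most `K`, up to `o` itself, and it follows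
that `A` has at most `K` elements on one side of `o` with distance in `(r, 4 r]`. For each copy
`(x, y, z)`, `z = 3 y - 2 x`, either `y` is determined by `x` up to such a one-sided annulus, or
`z` by `y`, or `x` by `z`. Hence `T(A) ≤ 3 (n - 1) K`, and counting the pairs near the two ends
more carefully `T(A) ≤ 3 (n - 1) K - 2 K²`: no point is the middle of too many copies, and this
improves the bound `2 min(#A below y, #A above y)` for the central points `y`.
-/

set_option autoImplicit false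

open Filter

namespace Pool.Agent.Results.MP_b15886_co.BelowHalf

open HalfBound

/-- The number of copies with middle point `y`. -/
def t (A : Finset ℤ) (y : ℤ) : ℕ := (A.filter fun x => x ≠ y ∧ x + 3 * (y - x) ∈ A).card

/-- One-sided annuli around `o` of ratio `4` have at most `|A| - 1 - t(o)` elements. -/
lemma ann_bound (A : Finset ℤ) (o : ℤ) (ho : o ∈ A) (σ r : ℚ) (hr : 0 < r) :
    t A o + (A.filter fun x : ℤ => r < σ * ((x : ℚ) - o) ∧ σ * ((x : ℚ) - o) ≤ 4 * r).card + 1
      ≤ A.card := by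
  classical
  set Ann := A.filter fun x : ℤ => r < σ * ((x : ℚ) - o) ∧ σ * ((x : ℚ) - o) ≤ 4 * r with hAnn
  have hsub : Ann ⊆ A.erase o := by
    intro x hx
    rw [hAnn, Finset.mem_filter] at hx
    rw [Finset.mem_erase]
    refine ⟨?_, hx.1⟩
    rintro rfl
    have := hx.2.1
    rw [sub_self, mul_zero] at this
    linarith
  have hmap : ∀ x : ℤ, σ * (((x + 3 * (o - x) : ℤ) : ℚ) - o) = -2 * (σ * ((x : ℚ) - o)) := by
    intro x
    push_cast
    ring
  have h1 : t A o ≤ ((A.erase o) \ Ann).card := by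
    unfold t
    apply Finset.card_le_card_of_injOn
      (fun x : ℤ => if -(2 * r) ≤ σ * ((x : ℚ) - o) ∧ σ * ((x : ℚ) - o) ≤ r then x
        else x + 3 * (o - x))
    · intro x hx
      simp only [Finset.coe_filter, Set.mem_ofPred_eq] at hx
      obtain ⟨hxA, hxo, hx3⟩ := hx
      simp only [Finset.coe_sdiff, Set.mem_sdiff, Finset.mem_coe]
      split_ifs with hc
      · refine ⟨Finset.mem_erase.2 ⟨hxo, hxA⟩, ?_⟩
        intro hm
        rw [hAnn, Finset.mem_filter] at hm
        linarith [hm.2.1, hc.2]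
      · refine ⟨Finset.mem_erase.2 ⟨?_, hx3⟩, ?_⟩
        · intro h
          apply hxo
          omega
        · intro hm
          rw [hAnn, Finset.mem_filter, hmap] at hm
          apply hc
          constructor <;> linarith [hm.2.1, hm.2.2]
    · intro x hx y hy h
      simp only at h
      split_ifs at h with h1 h2 h2
      · exact h
      · exfalso
        have h3 := hmap y
        rw [← h] at h3
        rcases not_and_or.1 h2 with h4 | h4
        · rw [not_le] at h4
          linarith [h1.1, h1.2]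
        · rw [not_le] at h4
          linarith [h1.1, h1.2]
      · exfalso
        have h3 := hmap x
        rw [h] at h3
        rcases not_and_or.1 h1 with h4 | h4
        · rw [not_le] at h4
          linarith [h2.1, h2.2]
        · rw [not_le] at h4
          linarith [h2.1, h2.2]
      · omega
  have h2 := Finset.card_sdiff_add_card_eq_card hsub
  have h3 := Finset.card_erase_add_one ho
  omega

/-- `v` lies, seen from `u`, in a one-sided annulus of ratio `4`. -/
def Q (c ε u v : ℚ) : Prop :=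
  (0 < u ∧ c * u < ε * v ∧ ε * v ≤ 4 * (c * u)) ∨
    (u < 0 ∧ c * (-u) < -ε * v ∧ -ε * v ≤ 4 * (c * (-u)))

open Classical in
/-- The number of `y` in `A` in the annulus attached to `x`. -/
noncomputable def fib (A : Finset ℤ) (o : ℤ) (c ε : ℚ) (x : ℤ) : ℕ :=
  (A.filter fun y : ℤ => Q c ε ((x : ℚ) - o) ((y : ℚ) - o)).card

open Classical in
lemma pair_eq (A : Finset ℤ) (o : ℤ) (c ε : ℚ) :
    ((A ×ˢ A).filter (fun p => Q c ε ((p.1 : ℚ) - o) ((p.2 : ℚ) - o))).card =
      ∑ x ∈ A, fib A o c ε x := by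
  unfold fib
  rw [Finset.card_filter, Finset.sum_product]
  apply Finset.sum_congr rfl
  intro x _
  rw [Finset.card_filter]

lemma fib_zero (A : Finset ℤ) (o : ℤ) (c ε : ℚ) : fib A o c ε o = 0 := by
  classical
  unfold fib
  rw [Finset.card_eq_zero, Finset.filter_eq_empty_iff]
  intro y _ h
  rw [sub_self] at h
  rcases h with h | h
  · exact lt_irrefl _ h.1
  · exact lt_irrefl _ h.1

lemma fib_le (A : Finset ℤ) (o : ℤ) (K : ℕ)
    (hK : ∀ σ r : ℚ, 0 < r →
      (A.filter fun x : ℤ => r < σ * ((x : ℚ) - o) ∧ σ * ((x : ℚ) - o) ≤ 4 * r).card ≤ K)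
    (c ε : ℚ) (hc : 0 < c) (x : ℤ) : fib A o c ε x ≤ K := by
  classical
  by_cases hxo' : x = o
  · rw [hxo', fib_zero]
    exact Nat.zero_le _
  have hxo : ((x : ℚ) - o) ≠ 0 := by
    intro h
    have h' : (x : ℚ) = o := by linarith
    exact hxo' (by exact_mod_cast h')
  unfold fib
  rcases lt_or_gt_of_ne hxo with h | h
  · refine le_trans (Finset.card_le_card ?_)
      (hK (-ε) (c * (-((x : ℚ) - o))) (mul_pos hc (by linarith)))
    intro y hy
    rw [Finset.mem_filter] at hy ⊢
    refine ⟨hy.1, ?_⟩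
    rcases hy.2 with h3 | h3
    · exact absurd h3.1 (not_lt.2 h.le)
    · exact h3.2
  · refine le_trans (Finset.card_le_card ?_)
      (hK ε (c * ((x : ℚ) - o)) (mul_pos hc (by linarith)))
    intro y hy
    rw [Finset.mem_filter] at hy ⊢
    refine ⟨hy.1, ?_⟩
    rcases hy.2 with h3 | h3
    · exact h3.2
    · exact absurd h3.1 (not_lt.2 h.le)

/-- Sum over the fibres, those over `S` counted exactly. -/
lemma sum_fib (A : Finset ℤ) (o : ℤ) (ho : o ∈ A) (K : ℕ)
    (hK : ∀ σ r : ℚ, 0 < r →
      (A.filter fun x : ℤ => r < σ * ((x : ℚ) - o) ∧ σ * ((x : ℚ) - o) ≤ 4 * r).card ≤ K)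
    (c ε : ℚ) (hc : 0 < c) (S : Finset ℤ) (hS : S ⊆ A.erase o) :
    ∑ x ∈ A, fib A o c ε x + S.card * K ≤ (A.card - 1) * K + ∑ x ∈ S, fib A o c ε x := by
  rw [← Finset.add_sum_erase A _ ho, fib_zero, zero_add, ← Finset.sum_sdiff hS]
  have h1 : ∑ x ∈ A.erase o \ S, fib A o c ε x ≤ (A.erase o \ S).card * K := by
    have := Finset.sum_le_card_nsmul (A.erase o \ S) (fib A o c ε) K
      (fun x _ => fib_le A o K hK c ε hc x)
    rwa [smul_eq_mul] at this
  have h2 : (A.erase o \ S).card + S.card = A.card - 1 := by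
    rw [Finset.card_sdiff_add_card_eq_card hS, Finset.card_erase_of_mem ho]
  have h3 : (A.erase o \ S).card * K + S.card * K = (A.card - 1) * K := by
    rw [← add_mul, h2]
  omega

/-- The `k` smallest elements. -/
lemma seg_up (S : Finset ℤ) : ∀ k : ℕ, k ≤ S.card →
    ∃ C ⊆ S, C.card = k ∧ ∀ x ∈ C, ∀ y ∈ S, y ∉ C → x < y := by
  intro k
  induction k with
  | zero => exact fun _ => ⟨∅, Finset.empty_subset _, rfl, by simp⟩
  | succ k ih =>
    intro hk
    obtain ⟨C, h1, h2, h3⟩ := ih (by omega)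
    have hne : (S \ C).Nonempty := by
      rw [← Finset.card_pos, Finset.card_sdiff_of_subset h1]
      omega
    obtain ⟨m, hm, hmin⟩ := Finset.exists_min_image (S \ C) id hne
    rw [Finset.mem_sdiff] at hm
    refine ⟨insert m C, Finset.insert_subset hm.1 h1, ?_, ?_⟩
    · rw [Finset.card_insert_of_notMem hm.2, h2]
    · intro x hx y hy hyC
      rw [Finset.mem_insert, not_or] at hyC
      rw [Finset.mem_insert] at hx
      rcases hx with rfl | hx
      · exact lt_of_le_of_ne (hmin y (Finset.mem_sdiff.2 ⟨hy, hyC.2⟩)) (Ne.symm hyC.1)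
      · exact h3 x hx y hy hyC.2

/-- The `k` largest elements. -/
lemma seg_down (S : Finset ℤ) : ∀ k : ℕ, k ≤ S.card →
    ∃ C ⊆ S, C.card = k ∧ ∀ x ∈ C, ∀ y ∈ S, y ∉ C → y < x := by
  intro k
  induction k with
  | zero => exact fun _ => ⟨∅, Finset.empty_subset _, rfl, by simp⟩
  | succ k ih =>
    intro hk
    obtain ⟨C, h1, h2, h3⟩ := ih (by omega)
    have hne : (S \ C).Nonempty := by
      rw [← Finset.card_pos, Finset.card_sdiff_of_subset h1]
      omega
    obtain ⟨m, hm, hmax⟩ := Finset.exists_max_image (S \ C) id hne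
    rw [Finset.mem_sdiff] at hm
    refine ⟨insert m C, Finset.insert_subset hm.1 h1, ?_, ?_⟩
    · rw [Finset.card_insert_of_notMem hm.2, h2]
    · intro x hx y hy hyC
      rw [Finset.mem_insert, not_or] at hyC
      rw [Finset.mem_insert] at hx
      rcases hx with rfl | hx
      · exact lt_of_le_of_ne (hmax y (Finset.mem_sdiff.2 ⟨hy, hyC.2⟩)) hyC.1
      · exact h3 x hx y hy hyC.2

lemma swap_sum (F G : Finset ℤ) (P : ℤ → ℤ → Prop) [∀ a b, Decidable (P a b)] :
    ∑ u ∈ F, (G.filter fun v => P u v).card = ∑ v ∈ G, (F.filter fun u => P u v).card := by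
  simp only [Finset.card_filter]
  exact Finset.sum_comm

lemma half_sum (F : Finset ℤ) :
    2 * ∑ u ∈ F, (F.filter fun v => u < v).card + F.card = F.card ^ 2 := by
  have h1 := swap_sum F F (fun u v => u < v)
  have h2 : ∀ u ∈ F, (F.filter fun v => u < v).card + (F.filter fun v => v < u).card + 1 =
      F.card := by
    intro u hu
    have h3 : (F.filter fun x => x < u).card + (F.filter fun x => ¬ x < u).card = F.card :=
      Finset.card_filter_add_card_filter_not _
    have h4 : (F.filter fun x => ¬ x < u) = insert u (F.filter fun x => u < x) := by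
      ext x
      simp only [Finset.mem_filter, Finset.mem_insert, not_lt]
      constructor
      · rintro ⟨h, h3⟩
        rcases h3.eq_or_lt with h4 | h4
        · exact Or.inl h4.symm
        · exact Or.inr ⟨h, h4⟩
      · rintro (h | ⟨h, h3⟩)
        · exact ⟨h ▸ hu, h.ge⟩
        · exact ⟨h, h3.le⟩
    rw [h4, Finset.card_insert_of_notMem (by simp)] at h3
    omega
  have h3 : ∑ u ∈ F, ((F.filter fun v => u < v).card + (F.filter fun v => v < u).card + 1) =
      F.card * F.card := by
    rw [Finset.sum_congr rfl h2, Finset.sum_const, smul_eq_mul]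
  rw [Finset.sum_add_distrib, Finset.sum_add_distrib, Finset.sum_const, smul_eq_mul,
    mul_one] at h3
  rw [sq]
  omega

/-- Every nontrivial solution of `w = 3 v - 2 u` has one of three shapes. -/
lemma cover (u v : ℚ) (h : u ≠ v) :
    Q (1 / 3) 1 u v ∨ Q (3 / 2) 1 v (3 * v - 2 * u) ∨ Q (1 / 4) (-1) (3 * v - 2 * u) u := by
  unfold Q
  rcases lt_trichotomy u 0 with hu | hu | hu
  · by_cases h1 : u / 3 ≤ v
    · by_cases h2 : v < -(2 * u / 3)
      · right; right; left
        refine ⟨by linarith, by linarith, by linarith⟩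
      · right; left; left
        rw [not_lt] at h2
        refine ⟨by linarith, by linarith, by linarith⟩
    · rw [not_le] at h1
      by_cases h2 : 4 * u / 3 ≤ v
      · left; right
        refine ⟨hu, by linarith, by linarith⟩
      · rw [not_le] at h2
        right; left; right
        refine ⟨by linarith, by linarith, by linarith⟩
  · subst hu
    right; left
    rcases lt_or_gt_of_ne h with h1 | h1
    · left
      refine ⟨h1, by linarith, by linarith⟩
    · right
      refine ⟨h1, by linarith, by linarith⟩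
  · by_cases h1 : v ≤ u / 3
    · by_cases h2 : -(2 * u / 3) < v
      · right; right; right
        refine ⟨by linarith, by linarith, by linarith⟩
      · right; left; right
        rw [not_lt] at h2
        refine ⟨by linarith, by linarith, by linarith⟩
    · rw [not_le] at h1
      by_cases h2 : v ≤ 4 * u / 3
      · left; left
        refine ⟨hu, by linarith, by linarith⟩
      · rw [not_le] at h2
        right; left; left
        refine ⟨by linarith, by linarith, by linarith⟩

lemma type_one (A : Finset ℤ) (o : ℤ) (ho : o ∈ A) (K : ℕ)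
    (hK : ∀ σ r : ℚ, 0 < r →
      (A.filter fun x : ℤ => r < σ * ((x : ℚ) - o) ∧ σ * ((x : ℚ) - o) ≤ 4 * r).card ≤ K) :
    ∑ x ∈ A, fib A o (1 / 3) 1 x ≤ (A.card - 1) * K := by
  have h := sum_fib A o ho K hK (1 / 3) 1 (by norm_num) ∅ (Finset.empty_subset _)
  simpa using h

lemma type_two (A : Finset ℤ) (o : ℤ) (ho : o ∈ A) (K : ℕ)
    (hK : ∀ σ r : ℚ, 0 < r →
      (A.filter fun x : ℤ => r < σ * ((x : ℚ) - o) ∧ σ * ((x : ℚ) - o) ≤ 4 * r).card ≤ K)
    (hR : K ≤ (A.filter fun x => o < x).card) (hL : K ≤ (A.filter fun x => x < o).card) :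
    ∑ x ∈ A, fib A o (3 / 2) 1 x + K ^ 2 + K ≤ (A.card - 1) * K := by
  classical
  obtain ⟨F, hF, hFc, hF'⟩ := seg_down _ K hR
  obtain ⟨G, hG, hGc, hG'⟩ := seg_up _ K hL
  have hFA : ∀ x ∈ F, x ∈ A ∧ o < x := fun x hx => by simpa using hF hx
  have hGA : ∀ x ∈ G, x ∈ A ∧ x < o := fun x hx => by simpa using hG hx
  have hdis : Disjoint F G := by
    rw [Finset.disjoint_left]
    intro x hx hx'
    have := (hFA x hx).2
    have := (hGA x hx').2
    omega
  have hS : F ∪ G ⊆ A.erase o := by
    intro x hx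
    rw [Finset.mem_union] at hx
    rw [Finset.mem_erase]
    rcases hx with hx | hx
    · exact ⟨(hFA x hx).2.ne', (hFA x hx).1⟩
    · exact ⟨(hGA x hx).2.ne, (hGA x hx).1⟩
  have h1 := sum_fib A o ho K hK (3 / 2) 1 (by norm_num) (F ∪ G) hS
  rw [Finset.sum_union hdis, Finset.card_union_of_disjoint hdis, hFc, hGc] at h1
  have h2 : ∑ x ∈ F, fib A o (3 / 2) 1 x ≤ ∑ u ∈ F, (F.filter fun v => u < v).card := by
    refine Finset.sum_le_sum fun u hu => Finset.card_le_card ?_
    intro v hv
    rw [Finset.mem_filter] at hv ⊢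
    have hu' : (o : ℚ) < u := by exact_mod_cast (hFA u hu).2
    have huv : u < v := by
      rcases hv.2 with h | h
      · have : (u : ℚ) < v := by linarith [h.2.1]
        exact_mod_cast this
      · linarith [h.1]
    refine ⟨?_, huv⟩
    by_contra hvF
    have hvR : v ∈ A.filter fun x => o < x :=
      Finset.mem_filter.2 ⟨hv.1, lt_trans (hFA u hu).2 huv⟩
    have := hF' u hu v hvR hvF
    omega
  have h3 : ∑ x ∈ G, fib A o (3 / 2) 1 x ≤ ∑ u ∈ G, (G.filter fun v => v < u).card := by
    refine Finset.sum_le_sum fun u hu => Finset.card_le_card ?_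
    intro v hv
    rw [Finset.mem_filter] at hv ⊢
    have hu' : (u : ℚ) < o := by exact_mod_cast (hGA u hu).2
    have huv : v < u := by
      rcases hv.2 with h | h
      · linarith [h.1]
      · have : (v : ℚ) < u := by linarith [h.2.1]
        exact_mod_cast this
    refine ⟨?_, huv⟩
    by_contra hvG
    have hvL : v ∈ A.filter fun x => x < o :=
      Finset.mem_filter.2 ⟨hv.1, lt_trans huv (hGA u hu).2⟩
    have := hG' u hu v hvL hvG
    omega
  have h4 := half_sum F
  have h5 := half_sum G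
  have h6 := swap_sum G G (fun u v => u < v)
  rw [hFc] at h4
  rw [hGc] at h5
  rw [← h6] at h3
  nlinarith

lemma type_three (A : Finset ℤ) (o : ℤ) (ho : o ∈ A) (K : ℕ)
    (hK : ∀ σ r : ℚ, 0 < r →
      (A.filter fun x : ℤ => r < σ * ((x : ℚ) - o) ∧ σ * ((x : ℚ) - o) ≤ 4 * r).card ≤ K)
    (hR : K ≤ (A.filter fun x => o < x).card) (hL : K ≤ (A.filter fun x => x < o).card) :
    ∑ x ∈ A, fib A o (1 / 4) (-1) x + K ^ 2 ≤ (A.card - 1) * K + K := by
  classical
  obtain ⟨F, hF, hFc, hF'⟩ := seg_up _ K hR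
  obtain ⟨G, hG, hGc, hG'⟩ := seg_down _ K hL
  have hFA : ∀ x ∈ F, x ∈ A ∧ o < x := fun x hx => by simpa using hF hx
  have hGA : ∀ x ∈ G, x ∈ A ∧ x < o := fun x hx => by simpa using hG hx
  have hdis : Disjoint F G := by
    rw [Finset.disjoint_left]
    intro x hx hx'
    have := (hFA x hx).2
    have := (hGA x hx').2
    omega
  have hS : F ∪ G ⊆ A.erase o := by
    intro x hx
    rw [Finset.mem_union] at hx
    rw [Finset.mem_erase]
    rcases hx with hx | hx
    · exact ⟨(hFA x hx).2.ne', (hFA x hx).1⟩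
    · exact ⟨(hGA x hx).2.ne, (hGA x hx).1⟩
  have h1 := sum_fib A o ho K hK (1 / 4) (-1) (by norm_num) (F ∪ G) hS
  rw [Finset.sum_union hdis, Finset.card_union_of_disjoint hdis, hFc, hGc] at h1
  have h2 : ∑ x ∈ F, fib A o (1 / 4) (-1) x ≤
      ∑ u ∈ F, (G.filter fun v => o - v ≤ u - o).card := by
    refine Finset.sum_le_sum fun u hu => ?_
    have hu' : (o : ℚ) < u := by exact_mod_cast (hFA u hu).2
    by_cases hall : ∀ v ∈ A, v < o → o - v ≤ u - o → v ∈ G
    · refine Finset.card_le_card ?_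
      intro v hv
      rw [Finset.mem_filter] at hv ⊢
      have hvo : v < o ∧ o - v ≤ u - o := by
        rcases hv.2 with h | h
        · constructor
          · have : (v : ℚ) < o := by linarith [h.2.1]
            exact_mod_cast this
          · have : (o : ℚ) - v ≤ u - o := by linarith [h.2.2]
            exact_mod_cast this
        · linarith [h.1]
      exact ⟨hall v hv.1 hvo.1 hvo.2, hvo.2⟩
    · push Not at hall
      obtain ⟨v, hvA, hvo, hvu, hvG⟩ := hall
      have hfull : (G.filter fun v => o - v ≤ u - o) = G := by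
        rw [Finset.filter_eq_self]
        intro w hw
        have := hG' w hw v (Finset.mem_filter.2 ⟨hvA, hvo⟩) hvG
        omega
      rw [hfull, hGc]
      exact fib_le A o K hK _ _ (by norm_num) u
  have h3 : ∑ x ∈ G, fib A o (1 / 4) (-1) x ≤
      ∑ v ∈ G, (F.filter fun u => u - o ≤ o - v).card := by
    refine Finset.sum_le_sum fun u hu => ?_
    have hu' : (u : ℚ) < o := by exact_mod_cast (hGA u hu).2
    by_cases hall : ∀ v ∈ A, o < v → v - o ≤ o - u → v ∈ F
    · refine Finset.card_le_card ?_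
      intro v hv
      rw [Finset.mem_filter] at hv ⊢
      have hvo : o < v ∧ v - o ≤ o - u := by
        rcases hv.2 with h | h
        · linarith [h.1]
        · constructor
          · have : (o : ℚ) < v := by linarith [h.2.1]
            exact_mod_cast this
          · have : (v : ℚ) - o ≤ o - u := by linarith [h.2.2]
            exact_mod_cast this
      exact ⟨hall v hv.1 hvo.1 hvo.2, hvo.2⟩
    · push Not at hall
      obtain ⟨v, hvA, hvo, hvu, hvF⟩ := hall
      have hfull : (F.filter fun v => v - o ≤ o - u) = F := by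
        rw [Finset.filter_eq_self]
        intro w hw
        have := hF' w hw v (Finset.mem_filter.2 ⟨hvA, hvo⟩) hvF
        omega
      rw [hfull, hFc]
      exact fib_le A o K hK _ _ (by norm_num) u
  have h4 := swap_sum F G (fun u v => u - o ≤ o - v)
  rw [← h4] at h3
  have h5 : ∀ u ∈ F, (G.filter fun v => o - v ≤ u - o).card +
      (G.filter fun v => u - o ≤ o - v).card ≤ K + 1 := by
    intro u _
    have h6 : (G.filter fun v => o - v ≤ u - o).card +
        (G.filter fun v => ¬ o - v ≤ u - o).card = G.card :=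
      Finset.card_filter_add_card_filter_not _
    have h7 : (G.filter fun v => u - o ≤ o - v) ⊆
        insert (2 * o - u) (G.filter fun v => ¬ o - v ≤ u - o) := by
      intro v hv
      rw [Finset.mem_filter] at hv
      rw [Finset.mem_insert, Finset.mem_filter]
      by_cases h8 : v = 2 * o - u
      · exact Or.inl h8
      · exact Or.inr ⟨hv.1, by omega⟩
    have h8 := (Finset.card_le_card h7).trans (Finset.card_insert_le _ _)
    omega
  have h6 := Finset.sum_le_card_nsmul F _ (K + 1) h5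
  rw [Finset.sum_add_distrib, hFc, smul_eq_mul] at h6
  nlinarith

/-- `T(A) + 2 K² ≤ 3 (n - 1) K`. -/
lemma T_le_ann (A : Finset ℤ) (o : ℤ) (ho : o ∈ A) (K : ℕ)
    (hK : ∀ σ r : ℚ, 0 < r →
      (A.filter fun x : ℤ => r < σ * ((x : ℚ) - o) ∧ σ * ((x : ℚ) - o) ≤ 4 * r).card ≤ K)
    (hR : K ≤ (A.filter fun x => o < x).card) (hL : K ≤ (A.filter fun x => x < o).card) :
    T A + 2 * K ^ 2 ≤ 3 * ((A.card - 1) * K) := by
  classical
  have b1 := type_one A o ho K hK
  have b2 := type_two A o ho K hK hR hL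
  have b3 := type_three A o ho K hK hR hL
  rw [← pair_eq] at b1 b2 b3
  set F := (A ×ˢ A).filter (fun p : ℤ × ℤ => p.1 ≠ p.2 ∧ p.1 + 3 * (p.2 - p.1) ∈ A) with hF
  have hT : T A = F.card := rfl
  set F1 := F.filter (fun p => Q (1 / 3) 1 ((p.1 : ℚ) - o) ((p.2 : ℚ) - o)) with hF1
  set F2 := F.filter (fun p => Q (3 / 2) 1 ((p.2 : ℚ) - o)
    (((p.1 + 3 * (p.2 - p.1) : ℤ) : ℚ) - o)) with hF2
  set F3 := F.filter (fun p => Q (1 / 4) (-1) (((p.1 + 3 * (p.2 - p.1) : ℤ) : ℚ) - o)
    ((p.1 : ℚ) - o)) with hF3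
  have hcov : F ⊆ F1 ∪ F2 ∪ F3 := by
    intro p hp
    have hp' := hp
    rw [hF, Finset.mem_filter] at hp'
    have hne : ((p.1 : ℚ) - o) ≠ ((p.2 : ℚ) - o) := by
      intro h
      have h' : (p.1 : ℚ) = p.2 := by linarith
      exact hp'.2.1 (by exact_mod_cast h')
    have he : (((p.1 + 3 * (p.2 - p.1) : ℤ) : ℚ) - o) =
        3 * ((p.2 : ℚ) - o) - 2 * ((p.1 : ℚ) - o) := by
      push_cast
      ring
    rw [Finset.mem_union, Finset.mem_union]
    rcases cover _ _ hne with h | h | h
    · exact Or.inl (Or.inl (Finset.mem_filter.2 ⟨hp, h⟩))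
    · rw [← he] at h
      exact Or.inl (Or.inr (Finset.mem_filter.2 ⟨hp, h⟩))
    · rw [← he] at h
      exact Or.inr (Finset.mem_filter.2 ⟨hp, h⟩)
  have c1 : F1.card ≤
      ((A ×ˢ A).filter (fun p => Q (1 / 3) 1 ((p.1 : ℚ) - o) ((p.2 : ℚ) - o))).card := by
    refine Finset.card_le_card ?_
    intro p hp
    rw [hF1, hF, Finset.mem_filter, Finset.mem_filter] at hp
    exact Finset.mem_filter.2 ⟨hp.1.1, hp.2⟩
  have c2 : F2.card ≤
      ((A ×ˢ A).filter (fun p => Q (3 / 2) 1 ((p.1 : ℚ) - o) ((p.2 : ℚ) - o))).card := by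
    refine Finset.card_le_card_of_injOn
      (fun p : ℤ × ℤ => (p.2, p.1 + 3 * (p.2 - p.1))) ?_ ?_
    · intro p hp
      have hp := Finset.mem_coe.1 hp
      rw [hF2, hF, Finset.mem_filter, Finset.mem_filter, Finset.mem_product] at hp
      exact Finset.mem_coe.2 (Finset.mem_filter.2
        ⟨Finset.mem_product.2 ⟨hp.1.1.2, hp.1.2.2⟩, hp.2⟩)
    · intro p _ q _ h
      simp only [Prod.mk.injEq] at h
      ext
      · omega
      · exact h.1
  have c3 : F3.card ≤
      ((A ×ˢ A).filter (fun p => Q (1 / 4) (-1) ((p.1 : ℚ) - o) ((p.2 : ℚ) - o))).card := by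
    refine Finset.card_le_card_of_injOn
      (fun p : ℤ × ℤ => (p.1 + 3 * (p.2 - p.1), p.1)) ?_ ?_
    · intro p hp
      have hp := Finset.mem_coe.1 hp
      rw [hF3, hF, Finset.mem_filter, Finset.mem_filter, Finset.mem_product] at hp
      exact Finset.mem_coe.2 (Finset.mem_filter.2
        ⟨Finset.mem_product.2 ⟨hp.1.2.2, hp.1.1.1⟩, hp.2⟩)
    · intro p _ q _ h
      simp only [Prod.mk.injEq] at h
      ext
      · exact h.2
      · omega
  have h1 := Finset.card_le_card hcov
  have h2 := Finset.card_union_le (F1 ∪ F2) F3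
  have h3 := Finset.card_union_le F1 F2
  omega

/-- The sum of the truncated rank bounds. -/
lemma range_sum (d : ℕ) : ∀ s : ℕ,
    2 * ∑ j ∈ Finset.range (s + 1 + d), min (2 * min j (s + d - j)) s + d ^ 2 ≤ (s + d) ^ 2 := by
  intro s
  induction s using Nat.strong_induction_on with
  | _ s ih =>
    match s, ih with
    | 0, _ => simp
    | 1, _ =>
      rw [show 1 + 1 + d = d + 1 + 1 by ring, Finset.sum_range_succ, Finset.sum_range_succ']
      have h1 : ∑ k ∈ Finset.range d, min (2 * min (k + 1) (1 + d - (k + 1))) 1 ≤ d := by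
        refine (Finset.sum_le_card_nsmul _ _ 1 (fun _ _ => min_le_right _ _)).trans ?_
        simp
      have h2 : min (2 * min 0 (1 + d - 0)) 1 = 0 := by simp
      have h3 : min (2 * min (d + 1) (1 + d - (d + 1))) 1 = 0 := by
        have : 1 + d - (d + 1) = 0 := by omega
        rw [this]
        simp
      rw [h2, h3]
      nlinarith
    | s + 2, ih =>
      have h := ih s (by omega)
      rw [show s + 2 + 1 + d = (s + 1 + d) + 1 + 1 by ring, Finset.sum_range_succ,
        Finset.sum_range_succ']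
      have h2 : ∀ j ∈ Finset.range (s + 1 + d),
          min (2 * min (j + 1) (s + 2 + d - (j + 1))) (s + 2) ≤
          2 + min (2 * min j (s + d - j)) s := by
        intro j hj
        rw [Finset.mem_range] at hj
        omega
      have h3 := Finset.sum_le_sum h2
      rw [Finset.sum_add_distrib, Finset.sum_const, Finset.card_range, smul_eq_mul] at h3
      have h4 : min (2 * min 0 (s + 2 + d - 0)) (s + 2) = 0 := by simp
      have h5 : min (2 * min (s + 1 + d + 1) (s + 2 + d - (s + 1 + d + 1))) (s + 2) = 0 := by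
        have : s + 2 + d - (s + 1 + d + 1) = 0 := by omega
        rw [this]
        simp
      rw [h4, h5]
      nlinarith

/-- `2 ∑ min (2 min(#A below y, #A above y), s) + d² ≤ (|A| - 1)²` when `s + d = |A| - 1`. -/
lemma sum_trunc (A : Finset ℤ) (s d : ℕ) (hsd : s + 1 + d = A.card) :
    2 * ∑ y ∈ A, min (2 * min (A.filter fun x => x < y).card (A.filter fun x => y < x).card) s
      + d ^ 2 ≤ (s + d) ^ 2 := by
  set L : ℤ → ℕ := fun y => (A.filter fun x => x < y).card with hL
  have hR : ∀ y ∈ A, (A.filter fun x => y < x).card = s + d - L y := by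
    intro y hy
    have h1 : (A.filter fun x => x < y).card + (A.filter fun x => ¬ x < y).card = A.card :=
      Finset.card_filter_add_card_filter_not _
    have h2 : (A.filter fun x => ¬ x < y) = insert y (A.filter fun x => y < x) := by
      ext x
      simp only [Finset.mem_filter, Finset.mem_insert, not_lt]
      constructor
      · rintro ⟨h, h3⟩
        rcases h3.eq_or_lt with h4 | h4
        · exact Or.inl h4.symm
        · exact Or.inr ⟨h, h4⟩
      · rintro (h | ⟨h, h3⟩)
        · exact ⟨h ▸ hy, h.ge⟩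
        · exact ⟨h, h3.le⟩
    rw [h2, Finset.card_insert_of_notMem (by simp)] at h1
    simp only [hL]
    omega
  have hmono : ∀ a ∈ A, ∀ b, a < b → L a < L b := by
    intro a ha b hab
    apply Finset.card_lt_card
    refine ⟨fun x hx => ?_, fun h => ?_⟩
    · simp only [Finset.mem_filter] at hx ⊢
      exact ⟨hx.1, hx.2.trans hab⟩
    · have := h (Finset.mem_filter.mpr ⟨ha, hab⟩)
      simp at this
  have hinj : Set.InjOn L A := by
    intro a ha b hb h
    rcases lt_trichotomy a b with h1 | h1 | h1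
    · exact absurd h (hmono a ha b h1).ne
    · exact h1
    · exact absurd h (hmono b hb a h1).ne'
  have himg : A.image L = Finset.range (s + 1 + d) := by
    apply Finset.eq_of_subset_of_card_le
    · intro k hk
      obtain ⟨y, hy, rfl⟩ := Finset.mem_image.mp hk
      rw [Finset.mem_range, hsd]
      apply Finset.card_lt_card
      refine ⟨Finset.filter_subset _ _, fun h => ?_⟩
      have := h hy
      simp at this
    · rw [Finset.card_range, Finset.card_image_of_injOn hinj, hsd]
  have h1 : ∑ y ∈ A,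
      min (2 * min (A.filter fun x => x < y).card (A.filter fun x => y < x).card) s =
      ∑ j ∈ Finset.range (s + 1 + d), min (2 * min j (s + d - j)) s := by
    rw [← himg, Finset.sum_image hinj]
    apply Finset.sum_congr rfl
    intro y hy
    rw [hR y hy]
  rw [h1]
  exact range_sum d s

/-- The two inequalities between `T(A)` and `K`. -/
lemma exists_K (A : Finset ℤ) (hA : A.Nonempty) :
    ∃ K : ℕ, (3 * K ≤ A.card - 1 → T A + 2 * K ^ 2 ≤ 3 * ((A.card - 1) * K)) ∧
      2 * T A + K ^ 2 ≤ (A.card - 1) ^ 2 := by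
  obtain ⟨o, ho, hmax⟩ := Finset.exists_max_image A (t A) hA
  have h1 := ann_bound A o ho 1 1 one_pos
  have hs : t A o + 1 + (A.card - 1 - t A o) = A.card := by omega
  refine ⟨A.card - 1 - t A o, ?_, ?_⟩
  · intro h3K
    have hfib := fiber_bound A o
    have hfib' : t A o ≤
        2 * min (A.filter fun x => x < o).card (A.filter fun x => o < x).card := hfib
    refine T_le_ann A o ho _ ?_ (by omega) (by omega)
    intro σ r hr
    have h2 := ann_bound A o ho σ r hr
    omega
  · have h3 := sum_trunc A (t A o) (A.card - 1 - t A o) hs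
    have h4 : T A ≤ ∑ y ∈ A, min (2 * min (A.filter fun x => x < y).card
        (A.filter fun x => y < x).card) (t A o) := by
      rw [T_eq_sum]
      exact Finset.sum_le_sum fun y hy => le_min (fiber_bound A y) (hmax y hy)
    have h5 : t A o + (A.card - 1 - t A o) = A.card - 1 := by omega
    rw [h5] at h3
    omega

lemma const_eq : (√(2 / 3) - 1 / 3) ^ 2 + 2 / 3 * (√(2 / 3) - 1 / 3) = (5 / 9 : ℝ) := by
  have h : √(2 / 3 : ℝ) ^ 2 = 2 / 3 := Real.sq_sqrt (by norm_num)
  nlinarith

lemma const_bounds : (4 / 9 : ℝ) < √(2 / 3) - 1 / 3 ∧ √(2 / 3) - 1 / 3 < (0.4832 : ℝ) := by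
  have h1 : (0.8 : ℝ) < √(2 / 3) := by
    rw [Real.lt_sqrt (by norm_num)]
    norm_num
  have h2 : √(2 / 3 : ℝ) < 0.8165 := by
    rw [Real.sqrt_lt' (by norm_num)]
    norm_num
  constructor
  · norm_num at h1 ⊢
    linarith
  · norm_num at h2 ⊢
    linarith

lemma numeric (N T K c : ℝ) (hN : 0 ≤ N) (hK : 0 ≤ K) (hc : 4 / 9 < c) (hc1 : c < 0.4832)
    (hc2 : c ^ 2 + 2 / 3 * c = 5 / 9)
    (h1 : 3 * K ≤ N → T + 2 * K ^ 2 ≤ 3 * (N * K)) (h2 : 2 * T + K ^ 2 ≤ N ^ 2) :
    T ≤ c * N ^ 2 := by
  rcases le_or_gt (3 * K) N with h3 | h3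
  · have h4 := h1 h3
    by_contra h
    rw [not_le] at h
    have h5 : K ^ 2 < ((2 / 3 - c) * N) ^ 2 := by
      have : ((2 / 3 - c) * N) ^ 2 = (1 - 2 * c) * N ^ 2 := by
        have h6 : (2 / 3 - c) ^ 2 = 1 - 2 * c := by linarith
        rw [mul_pow, h6]
      rw [this]
      linarith
    have h6 : K < (2 / 3 - c) * N := by
      have h7 : 0 ≤ (2 / 3 - c) * N := mul_nonneg (by norm_num at hc1; linarith) hN
      exact lt_of_pow_lt_pow_left₀ 2 h7 h5
    have h8 : 0 ≤ ((2 / 3 - c) * N - K) * (3 * N - 2 * ((2 / 3 - c) * N + K)) := by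
      apply mul_nonneg (by linarith)
      nlinarith
    have h9 : ((2 / 3 - c) * N - K) * (3 * N - 2 * ((2 / 3 - c) * N + K)) =
        (3 * (2 / 3 - c) - 2 * (2 / 3 - c) ^ 2) * N ^ 2 - (3 * (N * K) - 2 * K ^ 2) := by
      ring
    have h10 : 3 * (2 / 3 - c) - 2 * (2 / 3 - c) ^ 2 = c := by linarith
    rw [h9, h10] at h8
    linarith
  · have h4 : N ^ 2 ≤ (3 * K) ^ 2 := pow_le_pow_left₀ hN h3.le 2
    have h5 : T ≤ 4 / 9 * N ^ 2 := by nlinarith
    nlinarith [sq_nonneg N]

/-- `T(A) ≤ (√(2/3) - 1/3) (|A| - 1)²` for every nonempty finite set `A` of integers. -/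
lemma T_real (A : Finset ℤ) (hA : A.Nonempty) :
    (T A : ℝ) ≤ (√(2 / 3) - 1 / 3) * ((A.card : ℝ) - 1) ^ 2 := by
  obtain ⟨K, h1, h2⟩ := exists_K A hA
  have h3 : 1 ≤ A.card := hA.card_pos
  have hcast : ((A.card - 1 : ℕ) : ℝ) = (A.card : ℝ) - 1 := by
    rw [Nat.cast_sub h3, Nat.cast_one]
  have h1' : 3 * (K : ℝ) ≤ (A.card : ℝ) - 1 →
      (T A : ℝ) + 2 * (K : ℝ) ^ 2 ≤ 3 * (((A.card : ℝ) - 1) * K) := by
    intro h
    rw [← hcast] at h ⊢
    have h4 : 3 * K ≤ A.card - 1 := by exact_mod_cast h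
    exact_mod_cast h1 h4
  have h2' : 2 * (T A : ℝ) + (K : ℝ) ^ 2 ≤ ((A.card : ℝ) - 1) ^ 2 := by
    rw [← hcast]
    exact_mod_cast h2
  have h4 : (0 : ℝ) ≤ (A.card : ℝ) - 1 := by
    have : (1 : ℝ) ≤ A.card := by exact_mod_cast h3
    linarith
  exact numeric _ _ K _ h4 (Nat.cast_nonneg K) const_bounds.1 const_bounds.2 const_eq h1' h2'

lemma const_nonneg : (0 : ℝ) ≤ √(2 / 3) - 1 / 3 := by
  linarith [const_bounds.1]

/-- **Theorem.** For every `n ≥ 1` one has `M(n) ≤ (√(2/3) - 1/3) (n - 1)²`, and hence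
`γ ≤ √(2/3) - 1/3 < 0.4832`. -/
theorem result :
    (∀ n : ℕ, 1 ≤ n →
      (Ne16c1d3e.max013AffineTranslates n : ℝ) ≤ (√(2 / 3) - 1 / 3) * ((n : ℝ) - 1) ^ 2) ∧
    Ne16c1d3e.Ne9f539be.gamma ≤ √(2 / 3) - 1 / 3 ∧
    √(2 / 3) - 1 / 3 < (0.4832 : ℝ) := by
  have key : ∀ n : ℕ, 1 ≤ n →
      (Ne16c1d3e.max013AffineTranslates n : ℝ) ≤ (√(2 / 3) - 1 / 3) * ((n : ℝ) - 1) ^ 2 := by
    intro n hn
    have hpos : 0 ≤ (√(2 / 3) - 1 / 3) * ((n : ℝ) - 1) ^ 2 :=
      mul_nonneg const_nonneg (sq_nonneg _)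
    have h1 : Ne16c1d3e.max013AffineTranslates n ≤ ⌊(√(2 / 3) - 1 / 3) * ((n : ℝ) - 1) ^ 2⌋₊ := by
      unfold Ne16c1d3e.max013AffineTranslates
      have hne : {k | ∃ A : Finset ℤ, A.card = n ∧
          k = ((A ×ˢ A).filter (fun (x, y) ↦ x ≠ y ∧ x + 3 * (y - x) ∈ A)).card}.Nonempty := by
        obtain ⟨A, hA⟩ := Infinite.exists_subset_card_eq ℤ n
        exact ⟨_, A, hA, rfl⟩
      refine csSup_le hne ?_
      rintro k ⟨A, hA, rfl⟩
      apply Nat.le_floor
      have h2 := T_real A (Finset.card_pos.1 (by omega))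
      rw [hA] at h2
      exact h2
    exact (Nat.cast_le.2 h1).trans (Nat.floor_le hpos)
  refine ⟨key, ?_, ?_⟩
  · unfold Ne16c1d3e.Ne9f539be.gamma
    apply limsup_le_of_le
    · refine ⟨0, ?_⟩
      intro b hb
      rw [eventually_map, eventually_atTop] at hb
      obtain ⟨N, hN⟩ := hb
      exact le_trans (by positivity) (hN N le_rfl)
    · filter_upwards [eventually_ge_atTop 1] with n hn
      have h1 : (1 : ℝ) ≤ n := by exact_mod_cast hn
      rw [div_le_iff₀ (by positivity)]
      refine (key n hn).trans (mul_le_mul_of_nonneg_left ?_ const_nonneg)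
      nlinarith
  · exact const_bounds.2

end Pool.Agent.Results.MP_b15886_co.BelowHalf
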